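import Pool.Agent.Lib.MP_0ee9ff_an.Main

namespace Pool.Agent.Variants.MP_0ee9ff_an.NoSuchKernel

open MeasureTheory
open scoped ENNReal

/-- Lebesgue measure on the interval `(a, b)`, where the end points may be infinite. -/
noncomputable def leb (a b : EReal) : Measure ℝ :=
  volume.restrict {x : ℝ | a < (x : EReal) ∧ (x : EReal) < b}

/-- The complex Hilbert space `L²(μ)`. -/
abbrev L2 (μ : Measure ℝ) : Type := Lp ℂ 2 μ

/-- A bounded linear operator that commutes with its adjoint. -/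
def IsNormalOp {H : Type} [NormedAddCommGroup H] [InnerProductSpace ℂ H] (N : H → H) : Prop :=
  IsBoundedLinearMap ℂ N ∧
    ∃ N' : H → H, (∀ u v, inner ℂ (N u) v = inner ℂ u (N' v)) ∧ ∀ v, N (N' v) = N' (N v)

/-- `ν` is a Carleman kernel for the measure `μ`. -/
def IsCarlemanKernel (μ : Measure ℝ) (ν : ℝ → ℝ → ℂ) : Prop :=
  AEStronglyMeasurable (Function.uncurry ν) (μ.prod μ) ∧ ∀ᵐ x ∂μ, ∫⁻ y, ‖ν x y‖ₑ ^ 2 ∂μ < ∞

/-- The map `N` on `L²(μ)` is given by integration against `ν`. -/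
def HasKernel (μ : Measure ℝ) (N : L2 μ → L2 μ) (ν : ℝ → ℝ → ℂ) : Prop :=
  ∀ f : L2 μ, ∀ᵐ x ∂μ, N f x = ∫ y, ν x y * f y ∂μ

theorem result (a b : EReal) (_hab : a < b)
    (N : L2 (leb a b) → L2 (leb a b)) (hnormal : IsNormalOp N)
    (ν : ℝ → ℝ → ℂ) (hCarleman : IsCarlemanKernel (leb a b) ν)
    (hkernel : HasKernel (leb a b) N ν) :
    ∀ᵐ y ∂(leb a b), ∫⁻ x, ‖ν x y‖ₑ ^ 2 ∂(leb a b) < ∞ := by
  have : SigmaFinite (leb a b) := by unfold leb; infer_instance
  obtain ⟨hb, N', h1, h2⟩ := hnormal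
  have h3 : ∀ v, ContinuousLinearMap.adjoint hb.toContinuousLinearMap v = N' v := by
    intro v
    apply ext_inner_left ℂ
    intro u
    rw [ContinuousLinearMap.adjoint_inner_right, ← h1]
    rfl
  have hn : IsStarNormal hb.toContinuousLinearMap := ⟨ContinuousLinearMap.ext fun v => by
    change ContinuousLinearMap.adjoint hb.toContinuousLinearMap (N v) =
      N (ContinuousLinearMap.adjoint hb.toContinuousLinearMap v)
    rw [h3, h3, h2]⟩
  filter_upwards [Pool.Agent.Lib.MP_0ee9ff_an.main _ hn ν hCarleman.1 hCarleman.2 hkernel,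
    hCarleman.2] with y h1 h2
  rw [h1]
  exact h2

end Pool.Agent.Variants.MP_0ee9ff_an.NoSuchKernel
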